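import Mathlib

namespace Pool.Agent.Results.MP_7677b2_pr.NotMono

open MeasureTheory ProbabilityTheory Set
open scoped ENNReal NNReal

open Classical in
noncomputable def mn {n : ℕ} (G : SimpleGraph (Fin n)) (p : ℝ) (f : Fin n → ℝ) (v : Fin n) : ℝ :=
  Classical.epsilon fun y : ℝ => ∀ z : ℝ,
    ∑ w with G.Adj v w, |y - f w| ^ p ≤ ∑ w with G.Adj v w, |z - f w| ^ p

noncomputable def dyn {n : ℕ} (G : SimpleGraph (Fin n)) (p : ℝ) (f : Fin n → ℝ) (ω : ℕ → Fin n) :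
    ℕ → Fin n → ℝ
  | 0 => f
  | t + 1 => Function.update (dyn G p f ω t) (ω t) (mn G p (dyn G p f ω t) (ω t))

noncomputable def tau {n : ℕ} (G : SimpleGraph (Fin n)) (p : ℝ) (f : Fin n → ℝ) (e : ℝ)
    (ω : ℕ → Fin n) : ℝ≥0∞ :=
  ⨅ (t : ℕ) (_ : ∀ u v, dyn G p f ω t u - dyn G p f ω t v ≤ e), (t : ℝ≥0∞)

def D (v a b c : Fin 4) : Prop := v ≠ a ∧ v ≠ b ∧ v ≠ c ∧ a ≠ b ∧ a ≠ c ∧ b ≠ c

instance (v a b c : Fin 4) : Decidable (D v a b c) := by unfold D; infer_instance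

def Is (p a b c y : ℝ) : Prop :=
  ∀ z, |y - a| ^ p + |y - b| ^ p + |y - c| ^ p ≤ |z - a| ^ p + |z - b| ^ p + |z - c| ^ p

lemma lo {p a z : ℝ} (hp : 0 < p) (ha : a ∈ Icc (0 : ℝ) 1) (hz : z < 0) :
    |0 - a| ^ p < |z - a| ^ p := by
  refine Real.rpow_lt_rpow (abs_nonneg _) ?_ hp
  rw [abs_of_nonpos (by linarith [ha.1]), abs_of_nonpos (by linarith [ha.1])]
  linarith

lemma hi {p a z : ℝ} (hp : 0 < p) (ha : a ∈ Icc (0 : ℝ) 1) (hz : 1 < z) :
    |1 - a| ^ p < |z - a| ^ p := by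
  refine Real.rpow_lt_rpow (abs_nonneg _) ?_ hp
  rw [abs_of_nonneg (by linarith [ha.2]), abs_of_nonneg (by linarith [ha.2])]
  linarith

lemma ex_is {p a b c : ℝ} (hp : 0 < p) (ha : a ∈ Icc (0 : ℝ) 1) (hb : b ∈ Icc (0 : ℝ) 1)
    (hc : c ∈ Icc (0 : ℝ) 1) : ∃ y, Is p a b c y := by
  have h : ∀ d : ℝ, Continuous fun y : ℝ => |y - d| ^ p := fun d =>
    (continuous_id.sub continuous_const).abs.rpow_const fun _ => Or.inr hp.le
  obtain ⟨y, -, hy⟩ := (isCompact_Icc (a := (0 : ℝ)) (b := 1)).exists_isMinOn ⟨0, by simp⟩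
    (((h a).add (h b)).add (h c)).continuousOn
  refine ⟨y, fun z => ?_⟩
  rcases lt_or_ge z 0 with h0 | h0
  · have := hy (show (0 : ℝ) ∈ Icc 0 1 by simp)
    simp only [mem_ofPred_eq, Pi.add_apply] at this
    linarith [lo hp ha h0, lo hp hb h0, lo hp hc h0]
  rcases lt_or_ge 1 z with h1 | h1
  · have := hy (show (1 : ℝ) ∈ Icc 0 1 by simp)
    simp only [mem_ofPred_eq, Pi.add_apply] at this
    linarith [hi hp ha h1, hi hp hb h1, hi hp hc h1]
  exact hy ⟨h0, h1⟩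

lemma step {p : ℝ} (hp : 0 < p) {f : Fin 4 → ℝ} (hf : ∀ w, f w ∈ Icc (0 : ℝ) 1) {v a b c : Fin 4}
    (h : D v a b c) : Is p (f a) (f b) (f c) (mn ⊤ p f v) ∧ mn ⊤ p f v ∈ Icc (0 : ℝ) 1 := by
  have h1 : ∀ v a b c : Fin 4, D v a b c → ∀ w, v ≠ w ↔ w = a ∨ w = b ∨ w = c := by
    decide +kernel
  have h2 : Is p (f a) (f b) (f c) (mn ⊤ p f v) := by
    unfold mn
    have : ∀ i : DecidablePred fun w => (⊤ : SimpleGraph (Fin 4)).Adj v w,
        @Finset.filter _ _ i Finset.univ = {a, b, c} := fun i => by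
      ext w
      simp [← h1 v a b c h w]
    obtain ⟨-, -, -, h3, h4, h5⟩ := h
    simp only [this, Finset.sum_insert (show a ∉ ({b, c} : Finset _) by simp [h3, h4]),
      Finset.sum_pair h5, ← add_assoc]
    exact Classical.epsilon_spec (ex_is hp (hf a) (hf b) (hf c))
  refine ⟨h2, not_lt.mp fun h0 => ?_, not_lt.mp fun h0 => ?_⟩
  · linarith [lo hp (hf a) h0, lo hp (hf b) h0, lo hp (hf c) h0, h2 0]
  · linarith [hi hp (hf a) h0, hi hp (hf b) h0, hi hp (hf c) h0, h2 1]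

lemma inv {p : ℝ} (hp : 0 < p) {f : Fin 4 → ℝ} (hf : ∀ w, f w ∈ Icc (0 : ℝ) 1) (ω : ℕ → Fin 4)
    (t : ℕ) : ∀ w, dyn ⊤ p f ω t w ∈ Icc (0 : ℝ) 1 := by
  induction t with
  | zero => exact hf
  | succ t ih =>
    intro w
    rw [dyn, Function.update_apply]
    split_ifs
    · obtain ⟨a, b, c, h⟩ : ∃ a b c, D (ω t) a b c := by
        generalize ω t = v
        revert v
        decide +kernel
      exact (step hp ih h).2
    · exact ih w

lemma mean {a b c y : ℝ} (h : Is 2 a b c y) : y = (a + b + c) / 3 := by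
  have := h ((a + b + c) / 3)
  simp only [Real.rpow_two, sq_abs] at this
  nlinarith [sq_nonneg (y - (a + b + c) / 3)]

def f0 : Fin 4 → ℝ := ![0, 0, 1, 1]

lemma f0_mem : ∀ w, f0 w ∈ Icc (0 : ℝ) 1 := fun w => by fin_cases w <;> simp [f0]

def q (a b c : ℝ) : ℝ := (a - b) ^ 2 + (b - c) ^ 2 + (a - c) ^ 2

lemma slow (ω : ℕ → Fin 4) (t : ℕ) : ∀ v a b c, D v a b c →
    2 / 9 ^ t ≤ q (dyn ⊤ 2 f0 ω t a) (dyn ⊤ 2 f0 ω t b) (dyn ⊤ 2 f0 ω t c) := by
  induction t with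
  | zero =>
    intro v a b c h
    fin_cases v <;> fin_cases a <;> fin_cases b <;> fin_cases c <;>
      first | exact absurd h (by decide) | norm_num [dyn, f0, q]
  | succ t ih =>
    have h1 : ∀ u v a b c : Fin 4, D v a b c → u = v ∨ u = a ∨ u = b ∨ u = c := by decide +kernel
    have h2 : ∀ v a b c : Fin 4, D v a b c → D a v b c ∧ D b v a c ∧ D c v a b := by
      decide +kernel
    have h3 : (2 : ℝ) / 9 ^ t = 9 * (2 / 9 ^ (t + 1)) := by field_simp; ring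
    have h4 : (0 : ℝ) < 2 / 9 ^ (t + 1) := by positivity
    intro v a b c h
    have hi := inv two_pos f0_mem ω t
    obtain ⟨k1, k2, k3⟩ := h2 v a b c h
    have i0 := ih _ _ _ _ h
    have i1 := ih _ _ _ _ k1
    have i2 := ih _ _ _ _ k2
    have i3 := ih _ _ _ _ k3
    obtain ⟨n1, n2, n3, n4, n5, n6⟩ := id h
    rw [dyn]
    rcases h1 (ω t) v a b c h with e | e | e | e <;> rw [e]
    · simp only [Function.update_of_ne, n1.symm, n2.symm, n3.symm, ne_eq, not_false_eq_true]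
      linarith
    · simp only [Function.update_of_ne, n4.symm, n5.symm, ne_eq, not_false_eq_true,
        Function.update_self, mean (step two_pos hi k1).1, q] at *
      nlinarith [sq_nonneg (dyn ⊤ 2 f0 ω t b - dyn ⊤ 2 f0 ω t c)]
    · simp only [Function.update_of_ne, n4, n6.symm, ne_eq, not_false_eq_true,
        Function.update_self, mean (step two_pos hi k2).1, q] at *
      nlinarith [sq_nonneg (dyn ⊤ 2 f0 ω t a - dyn ⊤ 2 f0 ω t c)]
    · simp only [Function.update_of_ne, n5, n6, ne_eq, not_false_eq_true,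
        Function.update_self, mean (step two_pos hi k3).1, q] at *
      nlinarith [sq_nonneg (dyn ⊤ 2 f0 ω t a - dyn ⊤ 2 f0 ω t b)]

lemma tau_two (ω : ℕ → Fin 4) (T : ℕ) : (T : ℝ≥0∞) ≤ tau ⊤ 2 f0 (1 / (2 * 3 ^ T)) ω := by
  refine le_iInf₂ fun t ht => Nat.cast_le.mpr (not_lt.mp fun hT => ?_)
  have h := slow ω t 0 1 2 3 (by decide)
  have h1 : ∀ u v, (dyn ⊤ 2 f0 ω t u - dyn ⊤ 2 f0 ω t v) ^ 2 ≤ (1 / (2 * 3 ^ T)) ^ 2 := fun u v =>
    sq_le_sq' (by linarith [ht v u]) (ht u v)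
  have h2 : (2 : ℝ) / 9 ^ T ≤ 2 / 9 ^ t := by gcongr; norm_num
  have h3 : ((1 : ℝ) / (2 * 3 ^ T)) ^ 2 = 2 / 9 ^ T / 8 := by
    rw [show (9 : ℝ) = 3 ^ 2 by norm_num, ← pow_mul, mul_comm 2 T, pow_mul]
    field_simp
    norm_num
  have h4 : (0 : ℝ) < 2 / 9 ^ T := by positivity
  unfold q at h
  linarith [h1 1 2, h1 2 3, h1 1 3]

lemma near {η : ℝ} (h : 0 < η) : ∃ p : ℝ, 1 < p ∧ p < 2 ∧ ∀ x, 0 ≤ x → x - η ≤ x ^ p := by
  have h1 : ∀ᶠ r in nhds (0 : ℝ), 1 - η < η ^ r :=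
    (Real.continuousAt_const_rpow h.ne').eventually (lt_mem_nhds (by simpa))
  obtain ⟨r, hr, r0, r1⟩ := ((h1.filter_mono nhdsWithin_le_nhds).and
    (Ioo_mem_nhdsGT (zero_lt_one' ℝ))).exists
  refine ⟨1 + r, by linarith, by linarith, fun x hx => ?_⟩
  rcases le_total x η with h2 | h2
  · linarith [Real.rpow_nonneg hx (1 + r)]
  rcases le_total 1 x with h3 | h3
  · linarith [Real.self_le_rpow_of_one_le h3 (show 1 ≤ 1 + r by linarith)]
  rw [Real.rpow_add (by linarith), Real.rpow_one]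
  have := Real.rpow_le_rpow h.le h2 r0.le
  nlinarith

lemma up {p η a b c y : ℝ} (hp : 1 ≤ p) (h : ∀ x, 0 ≤ x → x - η ≤ x ^ p) (h0 : 0 < η)
    (ha : a ∈ Icc (0 : ℝ) 1) (hb : b ∈ Icc (0 : ℝ) 1) (hc : c ∈ Icc (0 : ℝ) 1)
    (hy : Is p a b c y) : y ≤ max a b + 3 * η ∧ min a b - 3 * η ≤ y := by
  have k : ∀ s ∈ Icc (0 : ℝ) 1, |y - a| + |y - b| + |y - c| ≤ |s - a| + |s - b| + |s - c| + 3 * η := by
    intro s hs
    have k1 : ∀ d ∈ Icc (0 : ℝ) 1, |s - d| ^ p ≤ |s - d| := fun d hd =>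
      Real.rpow_le_self_of_le_one (abs_nonneg _)
        (abs_le.mpr ⟨by linarith [hs.1, hd.2], by linarith [hs.2, hd.1]⟩) hp
    linarith [hy s, k1 a ha, k1 b hb, k1 c hc, h _ (abs_nonneg (y - a)), h _ (abs_nonneg (y - b)),
      h _ (abs_nonneg (y - c))]
  constructor
  · have := k (max a b) ⟨le_max_of_le_left ha.1, max_le ha.2 hb.2⟩
    rw [abs_of_nonneg (sub_nonneg.mpr (le_max_left a b)),
      abs_of_nonneg (sub_nonneg.mpr (le_max_right a b))] at this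
    by_contra hh
    have k2 := abs_sub_le (max a b) y c
    rw [abs_of_nonpos (show max a b - y ≤ 0 by linarith)] at k2
    linarith [le_abs_self (y - a), le_abs_self (y - b)]
  · have := k (min a b) ⟨le_min ha.1 hb.1, min_le_of_left_le ha.2⟩
    rw [abs_of_nonpos (sub_nonpos.mpr (min_le_left a b)),
      abs_of_nonpos (sub_nonpos.mpr (min_le_right a b))] at this
    by_contra hh
    have k2 := abs_sub_le (min a b) y c
    rw [abs_of_nonneg (show 0 ≤ min a b - y by linarith)] at k2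
    linarith [neg_abs_le (y - a), neg_abs_le (y - b)]

lemma block {p η : ℝ} (hp : 1 ≤ p) (h : ∀ x, 0 ≤ x → x - η ≤ x ^ p) (h0 : 0 < η) (ω : ℕ → Fin 4)
    (s : ℕ) (e0 : ω s = 0) (e1 : ω (s + 1) = 1) (e2 : ω (s + 2) = 2) (e3 : ω (s + 3) = 3) :
    ∀ u v, dyn ⊤ p f0 ω (s + 4) u - dyn ⊤ p f0 ω (s + 4) v ≤ 12 * η := by
  have hp0 : 0 < p := by linarith
  have k : ∀ t a b c, D (ω t) a b c → dyn ⊤ p f0 ω (t + 1) (ω t) ≤
      max (dyn ⊤ p f0 ω t a) (dyn ⊤ p f0 ω t b) + 3 * η ∧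
      min (dyn ⊤ p f0 ω t a) (dyn ⊤ p f0 ω t b) - 3 * η ≤ dyn ⊤ p f0 ω (t + 1) (ω t) := by
    intro t a b c hd
    have hi := inv hp0 f0_mem ω t
    rw [dyn, Function.update_self]
    exact up hp h h0 (hi a) (hi b) (hi c) (step hp0 hi hd).1
  have k' : ∀ t w, w ≠ ω t → dyn ⊤ p f0 ω (t + 1) w = dyn ⊤ p f0 ω t w := fun t w hw => by
    rw [dyn, Function.update_of_ne hw]
  have a1 := k s 2 3 1 (by rw [e0]; decide)
  have a2 := k (s + 1) 0 2 3 (by rw [e1]; decide)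
  have a3 := k (s + 1) 0 3 2 (by rw [e1]; decide)
  have a4 := k (s + 2) 0 1 3 (by rw [e2]; decide)
  have a5 := k (s + 3) 0 1 2 (by rw [e3]; decide)
  have b0 := k' s
  have b1 := k' (s + 1)
  have b2 := k' (s + 2)
  have b3 := k' (s + 3)
  rw [e0] at a1 b0
  rw [e1] at a2 a3 b1
  rw [e2] at a4 b2
  rw [e3] at a5 b3
  rw [b0 2 (by decide)] at a2
  rw [b0 3 (by decide)] at a3
  rw [b1 0 (by decide)] at a4
  rw [b2 0 (by decide), b2 1 (by decide), b1 0 (by decide)] at a5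
  have c0 := b3 0 (by decide)
  have c1 := b3 1 (by decide)
  have c2 := b3 2 (by decide)
  rw [b2 0 (by decide), b1 0 (by decide)] at c0
  rw [b2 1 (by decide)] at c1
  rw [← c2, ← c0, ← c1] at a4
  rw [← c0, ← c1] at a5 a2 a3
  rw [← c0] at a1
  have hm : ∀ u, min (dyn ⊤ p f0 ω (s + 4) 0) (dyn ⊤ p f0 ω (s + 4) 1) - 3 * η ≤
      dyn ⊤ p f0 ω (s + 4) u ∧ dyn ⊤ p f0 ω (s + 4) u ≤
        max (dyn ⊤ p f0 ω (s + 4) 0) (dyn ⊤ p f0 ω (s + 4) 1) + 3 * η := by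
    simp only [Fin.forall_fin_succ, IsEmpty.forall_iff, and_true]
    refine ⟨⟨(sub_le_self _ (by positivity)).trans (min_le_left _ _),
      (le_max_left _ _).trans (le_add_of_nonneg_right (by positivity))⟩,
      ⟨(sub_le_self _ (by positivity)).trans (min_le_right _ _),
      (le_max_right _ _).trans (le_add_of_nonneg_right (by positivity))⟩, a4.symm, a5.symm⟩
  have hd : max (dyn ⊤ p f0 ω (s + 4) 0) (dyn ⊤ p f0 ω (s + 4) 1) ≤
      min (dyn ⊤ p f0 ω (s + 4) 0) (dyn ⊤ p f0 ω (s + 4) 1) + 6 * η := by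
    generalize dyn ⊤ p f0 ω (s + 3 + 1) 0 = x at *
    generalize dyn ⊤ p f0 ω (s + 3 + 1) 1 = y at *
    generalize dyn ⊤ p f0 ω s 2 = c at *
    generalize dyn ⊤ p f0 ω s 3 = d at *
    obtain ⟨a1, a1'⟩ := a1
    obtain ⟨a2, a2'⟩ := a2
    obtain ⟨a3, a3'⟩ := a3
    simp only [max_def, min_def] at a1 a1' a2 a2' a3 a3' ⊢
    split_ifs at * <;> linarith
  intro u v
  linarith [(hm u).2, (hm v).1]

noncomputable abbrev P (n : ℕ) : Measure (ℕ → Fin (n + 2)) :=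
  Measure.infinitePi fun _ => uniformOn univ

def B (k : ℕ) : Set (ℕ → Fin 4) := {ω | ∀ j < k, (fun i : Fin 4 => ω (4 * j + i)) ≠ id}

lemma B_prob : ∃ r < (1 : ℝ≥0∞), ∀ k, MeasurableSet (B k) ∧ P 2 (B k) = r ^ k := by
  let ν : Measure (Fin 4 → Fin 4) := Measure.infinitePi fun _ => uniformOn univ
  have h0 : ν {id} ≠ 0 := by
    rw [← univ_pi_singleton, ← Finset.coe_univ, Measure.infinitePi_pi _ fun _ _ => .of_discrete,
      Finset.prod_ne_zero_iff]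
    intro a _
    simp [uniformOn_univ]
  refine ⟨ν {id}ᶜ, ?_, fun k => ?_⟩
  · rw [prob_compl_eq_one_sub .of_discrete]
    exact ENNReal.sub_lt_self (by simp) (by simp) h0
  have h1 := Measure.map_infinitePi_infinitePi_of_inj
    (P := fun _ : ℕ => uniformOn (univ : Set (Fin 4))) (f := fun x : ℕ × Fin 4 => 4 * x.1 + x.2)
    (fun x y h => Prod.ext (by have := x.2.2; have := y.2.2; simp only at h; omega)
      (Fin.ext (by have := x.2.2; have := y.2.2; simp only at h; omega)))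
  have h2 := Measure.infinitePi_map_curry (fun (_ : ℕ) (_ : Fin 4) => uniformOn (univ : Set (Fin 4)))
  have hm : Measurable fun (ω : ℕ → Fin 4) (x : ℕ × Fin 4) => ω (4 * x.1 + x.2) := by fun_prop
  rw [← h1, Measure.map_map (MeasurableEquiv.measurable _) hm] at h2
  have hS : MeasurableSet (Set.pi (Finset.range k : Set ℕ) fun _ => ({id}ᶜ : Set (Fin 4 → Fin 4))) :=
    .pi (Finset.countable_toSet _) fun _ _ => .of_discrete
  have hm2 := (MeasurableEquiv.curry ℕ (Fin 4) (Fin 4)).measurable.comp hm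
  have e : B k = ((MeasurableEquiv.curry ℕ (Fin 4) (Fin 4)) ∘
      fun (ω : ℕ → Fin 4) (x : ℕ × Fin 4) => ω (4 * x.1 + x.2)) ⁻¹'
      (Set.pi (Finset.range k : Set ℕ) fun _ => ({id}ᶜ : Set (Fin 4 → Fin 4))) := by
    ext ω
    simp only [B, mem_ofPred_eq, mem_preimage, mem_pi, Finset.coe_range, mem_Iio]
    rfl
  refine ⟨e ▸ hm2 hS, ?_⟩
  rw [e, ← Measure.map_apply hm2 hS, h2, Measure.infinitePi_pi _ fun _ _ => .of_discrete]
  simp [ν]

lemma fast : ∃ K < (⊤ : ℝ≥0∞), ∀ p η : ℝ, 1 ≤ p → (∀ x, 0 ≤ x → x - η ≤ x ^ p) → 0 < η →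
    ∫⁻ ω, tau ⊤ p f0 (12 * η) ω ∂P 2 ≤ K := by
  obtain ⟨r, hr, hB⟩ := B_prob
  refine ⟨4 * (1 - r)⁻¹, ENNReal.mul_lt_top (by simp) (by simpa using hr), fun p η hp h h0 => ?_⟩
  calc _ ≤ ∫⁻ ω, ∑' k, (B k).indicator (fun _ => 4) ω ∂P 2 := lintegral_mono fun ω => ?_
    _ = _ := by
      rw [lintegral_tsum fun k => (measurable_const.indicator (hB k).1).aemeasurable,
        ← ENNReal.tsum_geometric, ← ENNReal.tsum_mul_left]
      exact tsum_congr fun k => by rw [lintegral_indicator_const (hB k).1, (hB k).2]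
  by_cases hω : ∃ j, (fun i : Fin 4 => ω (4 * j + i)) = id
  · have e := congrFun (Nat.find_spec hω)
    refine (iInf₂_le (4 * Nat.find hω + 4)
      (block hp h h0 ω _ (e 0) (e 1) (e 2) (e 3))).trans ?_
    refine le_trans ?_ (ENNReal.sum_le_tsum (Finset.range (Nat.find hω + 1)))
    rw [Finset.sum_congr rfl (g := fun _ => 4) fun k hk => indicator_of_mem (s := B k)
      (fun j hj => Nat.find_min hω (by have := Finset.mem_range.mp hk; omega)) _]
    simp [mul_comm, mul_add]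
  · rw [tsum_congr (g := fun _ => 4) fun k => indicator_of_mem (s := B k) (fun j _ e => hω ⟨j, e⟩) _,
      ENNReal.tsum_const_eq_top_of_ne_zero (by simp)]
    exact le_top

theorem result (C : ℝ≥0) : ∃ (n : ℕ) (G : SimpleGraph (Fin (n + 2))) (f : Fin (n + 2) → ℝ)
    (e p₁ p₂ : ℝ), G.Connected ∧ (∀ v, f v ∈ Icc (0 : ℝ) 1) ∧ 0 < e ∧ 1 < p₁ ∧ p₁ < p₂ ∧
    C * ∫⁻ ω, tau G p₁ f e ω ∂(Measure.infinitePi fun _ => uniformOn univ) <
      ∫⁻ ω, tau G p₂ f e ω ∂(Measure.infinitePi fun _ => uniformOn univ) := by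
  obtain ⟨K, hK, h⟩ := fast
  obtain ⟨T, hT⟩ := ENNReal.exists_nat_gt (ENNReal.mul_ne_top (ENNReal.coe_ne_top (r := C)) hK.ne)
  have he : (0 : ℝ) < 1 / (2 * 3 ^ T) / 12 := by positivity
  obtain ⟨p, p1, p2, hp⟩ := near he
  have h1 := h p _ p1.le hp he
  rw [mul_div_cancel₀ _ (by norm_num)] at h1
  refine ⟨2, ⊤, f0, 1 / (2 * 3 ^ T), p, 2, SimpleGraph.connected_top, f0_mem, by positivity, p1, p2,
    ((mul_le_mul_right h1 _).trans_lt hT).trans_le ?_⟩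
  refine le_trans ?_ (lintegral_mono fun ω => tau_two ω T)
  simp

end Pool.Agent.Results.MP_7677b2_pr.NotMono
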